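import Mathlib

namespace Pool.Agent.Results.MP_308823_co.Gamma

open Finset
open scoped Pointwise

/-- The cyclic block polytope `C_m^(a)`, block indices in `ZMod m`. -/
def poly (a m : ℕ) : Set (ZMod m → Fin a → ℝ) :=
  {x | (∀ i j, 0 ≤ x i j) ∧ ∀ i, ∑ j, x i j + ∑ j, x (i + 1) j ≤ 1}

/-- `L(q)`: the number of integer points of the dilate `q C_m^(a)`. -/
noncomputable def L (a m q : ℕ) : ℕ :=
  {x : ZMod m → Fin a → ℤ | (fun i j => (x i j : ℝ)) ∈ (q : ℝ) • poly a m}.ncard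

/-- `γ`-nonnegativity with respect to the degree. -/
def GammaNonneg (h : Polynomial ℝ) : Prop :=
  ∃ γ : ℕ → ℝ, (∀ j, 0 ≤ γ j) ∧ h = ∑ j ∈ range (h.natDegree / 2 + 1),
    Polynomial.C (γ j) * Polynomial.X ^ j * (1 + Polynomial.X) ^ (h.natDegree - 2 * j)

def D (n : ℕ) : Finset (ℕ × ℕ) := (range (n + 1) ×ˢ range (n + 1)).filter fun p => p.1 + p.2 ≤ n

def S (q : ℕ) : Finset (ℕ × ℕ × ℕ) :=
  (range (q + 1) ×ˢ range (q + 1) ×ˢ range (q + 1)).filter
    fun p => p.1 + p.2.1 ≤ q ∧ p.2.1 + p.2.2 ≤ q ∧ p.2.2 + p.1 ≤ q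

theorem mD {n : ℕ} {p : ℕ × ℕ} : p ∈ D n ↔ p.1 + p.2 ≤ n := by
  simp only [D, mem_filter, mem_product, mem_range]; omega

theorem mS {q : ℕ} {p : ℕ × ℕ × ℕ} :
    p ∈ S q ↔ p.1 + p.2.1 ≤ q ∧ p.2.1 + p.2.2 ≤ q ∧ p.2.2 + p.1 ≤ q := by
  simp only [S, mem_filter, mem_product, mem_range]; omega

theorem cD (n : ℕ) : 2 * (D n).card = (n + 1) * (n + 2) := by
  induction n with
  | zero => decide
  | succ n ih =>
    have : D (n + 1) = D n ∪ antidiagonal (n + 1) := by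
      ext p; simp only [mem_union, mD, HasAntidiagonal.mem_antidiagonal]; omega
    rw [this, card_union_of_disjoint, Nat.card_antidiagonal]
    · linarith
    · rw [disjoint_left]; intro p; simp only [mD, HasAntidiagonal.mem_antidiagonal]; omega

theorem cS (q : ℕ) : (S (q + 2)).card = (S q).card + (D (q + 2)).card + (D (q + 1)).card +
    (D q).card := by
  have : S (q + 2) = (S q).image (fun p => (p.1 + 1, p.2.1 + 1, p.2.2 + 1)) ∪
      (D (q + 2)).image (fun p => (p.1, p.2, 0)) ∪ (D (q + 1)).image (fun p => (p.1, 0, p.2 + 1)) ∪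
      (D q).image (fun p => (0, p.1 + 1, p.2 + 1)) := by
    ext ⟨x, y, z⟩
    simp only [mem_union, mem_image, mS, mD, Prod.mk.injEq, Prod.exists]
    constructor
    · intro h
      rcases z with _ | z
      · exact Or.inl (Or.inl (Or.inr ⟨x, y, by omega⟩))
      rcases y with _ | y
      · exact Or.inl (Or.inr ⟨x, z, by omega⟩)
      rcases x with _ | x
      · exact Or.inr ⟨y, z, by omega⟩
      · exact Or.inl (Or.inl (Or.inl ⟨x, y, z, by omega⟩))
    · rintro (((⟨a, b, c, h⟩ | ⟨a, b, h⟩) | ⟨a, b, h⟩) | ⟨a, b, h⟩) <;> omega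
  rw [this, card_union_of_disjoint, card_union_of_disjoint, card_union_of_disjoint,
    card_image_of_injective, card_image_of_injective, card_image_of_injective,
    card_image_of_injective]
  iterate 4
    rintro p p' h
    simp only [Prod.mk.injEq] at h
    ext <;> omega
  all_goals
    rw [disjoint_left]
    rintro ⟨x, y, z⟩
    simp only [mem_union, mem_image, Prod.mk.injEq, Prod.exists]
  · rintro ⟨a, b, c, h⟩ ⟨a', b', h'⟩; omega
  · rintro (⟨a, b, c, h⟩ | ⟨a, b, h⟩) ⟨a', b', h'⟩ <;> omega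
  · rintro ((⟨a, b, c, h⟩ | ⟨a, b, h⟩) | ⟨a, b, h⟩) ⟨a', b', h'⟩ <;> omega

theorem mem_dil (q : ℕ) (y : ZMod 3 → Fin 1 → ℝ) : y ∈ (q : ℝ) • poly 1 3 ↔
    (∀ i, 0 ≤ y i 0) ∧ ∀ i, y i 0 + y (i + 1) 0 ≤ q := by
  constructor
  · rintro ⟨x, ⟨h1, h2⟩, rfl⟩
    refine ⟨fun i => mul_nonneg (Nat.cast_nonneg q) (h1 i 0), fun i => ?_⟩
    have := mul_le_mul_of_nonneg_left (h2 i) (Nat.cast_nonneg (α := ℝ) q)
    simpa [mul_add] using this
  · rintro ⟨h1, h2⟩
    rcases Nat.eq_zero_or_pos q with rfl | hq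
    · refine ⟨0, ⟨fun _ _ => le_rfl, fun i => by simp⟩, ?_⟩
      funext i j
      have := h2 i; have := h1 i; have := h1 (i + 1)
      rw [Subsingleton.elim j 0]
      simp at *; linarith
    · have hq' : (0 : ℝ) < q := by exact_mod_cast hq
      refine ⟨(q : ℝ)⁻¹ • y, ⟨fun i j => ?_, fun i => ?_⟩, smul_inv_smul₀ hq'.ne' y⟩
      · rw [Subsingleton.elim j 0]; exact mul_nonneg (inv_nonneg.2 hq'.le) (h1 i)
      · have := h2 i
        simp only [Fin.sum_univ_one, Pi.smul_apply, smul_eq_mul, ← mul_add]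
        rwa [inv_mul_le_iff₀ hq', mul_one]

theorem L_eq (q : ℕ) : L 1 3 q = (S q).card := by
  rw [L, ← Set.ncard_coe_finset]
  symm
  refine Set.ncard_congr (fun p _ => fun i _ => (![p.1, p.2.1, p.2.2] : Fin 3 → ℤ) i) ?_ ?_ ?_
  · rintro ⟨x, y, z⟩ h
    have h := mS.1 h
    simp only [Set.mem_ofPred_eq, mem_dil]
    obtain ⟨h1, h2, h3⟩ := h
    refine ⟨fun i => ?_, fun i => ?_⟩
    · fin_cases i <;> simp
    · fin_cases i
      · show (((x : ℤ) : ℝ)) + ((y : ℤ) : ℝ) ≤ q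
        exact_mod_cast h1
      · show (((y : ℤ) : ℝ)) + ((z : ℤ) : ℝ) ≤ q
        exact_mod_cast h2
      · show (((z : ℤ) : ℝ)) + ((x : ℤ) : ℝ) ≤ q
        exact_mod_cast h3
  · rintro ⟨x, y, z⟩ ⟨x', y', z'⟩ _ _ h
    have h0 : (x : ℤ) = x' := congrFun (congrFun h (0 : Fin 3)) 0
    have h1 : (y : ℤ) = y' := congrFun (congrFun h (1 : Fin 3)) 0
    have h2 : (z : ℤ) = z' := congrFun (congrFun h (2 : Fin 3)) 0
    ext <;> simp only <;> omega
  · intro x hx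
    obtain ⟨h1, h2⟩ := (mem_dil q _).1 hx
    have a : ∀ i, 0 ≤ x i 0 := fun i => by exact_mod_cast h1 i
    have b : ∀ i, x i 0 + x (i + 1) 0 ≤ q := fun i => by exact_mod_cast h2 i
    have a0 := a (0 : Fin 3); have a1 := a (1 : Fin 3); have a2 := a (2 : Fin 3)
    have b0 : x (0 : Fin 3) 0 + x (1 : Fin 3) 0 ≤ q := b (0 : Fin 3)
    have b1 : x (1 : Fin 3) 0 + x (2 : Fin 3) 0 ≤ q := b (1 : Fin 3)
    have b2 : x (2 : Fin 3) 0 + x (0 : Fin 3) 0 ≤ q := b (2 : Fin 3)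
    refine ⟨((x (0 : Fin 3) 0).toNat, (x (1 : Fin 3) 0).toNat, (x (2 : Fin 3) 0).toNat),
      mem_coe.2 (mS.2 (by simp only; omega)), ?_⟩
    funext i j
    rw [Subsingleton.elim j 0]
    fin_cases i
    · exact Int.toNat_of_nonneg a0
    · exact Int.toNat_of_nonneg a1
    · exact Int.toNat_of_nonneg a2

theorem rec2 (q : ℕ) : (L 1 3 (q + 2) : ℝ) = L 1 3 q + (3 * (q + 2) * (q + 3) / 2 + 1) := by
  have h : 2 * L 1 3 (q + 2) = 2 * L 1 3 q + (3 * (q + 2) * (q + 3) + 2) := by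
    rw [L_eq, L_eq, cS]; nlinarith [cD q, cD (q + 1), cD (q + 2)]
  have : (2 * L 1 3 (q + 2) : ℝ) = 2 * L 1 3 q + (3 * (q + 2) * (q + 3) + 2) := by exact_mod_cast h
  linarith

theorem result : ∃ a m : ℕ, 1 ≤ a ∧ 3 ≤ m ∧ Odd m ∧ ∃ h : Polynomial ℝ,
    (h : PowerSeries ℝ) =
      (1 - PowerSeries.X ^ 2) ^ (a * m + 1) * PowerSeries.mk (fun q => (L a m q : ℝ)) ∧
    ¬ GammaNonneg h := by
  refine ⟨1, 3, le_rfl, le_rfl, by decide, 1 + 4 * Polynomial.X + 7 * Polynomial.X ^ 2 +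
    7 * Polynomial.X ^ 3 + 4 * Polynomial.X ^ 4 + Polynomial.X ^ 5, ?_, ?_⟩
  · have l0 : (L 1 3 0 : ℝ) = 1 := by rw [L_eq, show (S 0).card = 1 by decide]; simp
    have l1 : (L 1 3 1 : ℝ) = 4 := by rw [L_eq, show (S 1).card = 4 by decide]; simp
    have key : ∀ f : ℕ → ℝ, (1 - PowerSeries.X) * PowerSeries.mk f =
        PowerSeries.C (f 0) + PowerSeries.X * PowerSeries.mk fun n => f (n + 1) - f n := by
      intro f; ext n
      rcases n with _ | n
      · simp [sub_mul]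
      · simp [sub_mul, PowerSeries.coeff_succ_X_mul, PowerSeries.coeff_C]
    have e1 : (1 - PowerSeries.X ^ 2) * PowerSeries.mk (fun q => (L 1 3 q : ℝ)) =
        PowerSeries.mk fun n : ℕ => (3 * (n : ℝ) * (n + 1) / 2 + 1) := by
      ext n
      rw [sub_mul, one_mul, map_sub, PowerSeries.coeff_X_pow_mul', PowerSeries.coeff_mk,
        PowerSeries.coeff_mk]
      rcases n with _ | _ | n
      · simp [l0]
      · simp [l1]; norm_num
      · rw [if_pos (by omega), PowerSeries.coeff_mk, show n + 1 + 1 - 2 = n by omega,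
          show n + 1 + 1 = n + 2 by ring, rec2]
        push_cast; ring
    have e2 := key fun n : ℕ => (3 * (n : ℝ) * (n + 1) / 2 + 1)
    have e3 := key fun n : ℕ => 3 * ((n : ℝ) + 1)
    have e4 := key fun _ : ℕ => (3 : ℝ)
    have r2 : (fun n : ℕ => (3 * ((n + 1 : ℕ) : ℝ) * ((n + 1 : ℕ) + 1) / 2 + 1) -
        (3 * (n : ℝ) * (n + 1) / 2 + 1)) = fun n : ℕ => 3 * ((n : ℝ) + 1) := by
      funext n; push_cast; ring
    have r3 : (fun n : ℕ => 3 * (((n + 1 : ℕ) : ℝ) + 1) - 3 * ((n : ℝ) + 1)) =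
        fun _ : ℕ => (3 : ℝ) := by
      funext n; push_cast; ring
    have r4 : (PowerSeries.mk fun _ : ℕ => (3 : ℝ) - 3) = 0 := by ext n; simp
    have c3 : (PowerSeries.C (3 : ℝ)) = 3 := rfl
    simp only [r2, r3, r4, Nat.cast_zero, mul_zero, zero_mul, zero_div, zero_add, mul_one, map_one,
      add_zero, c3] at e2 e3 e4
    have c4 : ((4 : Polynomial ℝ) : PowerSeries ℝ) = 4 := map_ofNat Polynomial.coeToPowerSeries.ringHom 4
    have c7 : ((7 : Polynomial ℝ) : PowerSeries ℝ) = 7 := map_ofNat Polynomial.coeToPowerSeries.ringHom 7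
    simp only [Polynomial.coe_add, Polynomial.coe_mul, Polynomial.coe_pow, Polynomial.coe_X,
      Polynomial.coe_one, c4, c7]
    linear_combination (-(1 - PowerSeries.X ^ 2) ^ 3) * e1 -
      (1 + PowerSeries.X) ^ 3 * (1 - PowerSeries.X) ^ 2 * e2 -
      (1 + PowerSeries.X) ^ 3 * (1 - PowerSeries.X) * PowerSeries.X * e3 -
      (1 + PowerSeries.X) ^ 3 * PowerSeries.X ^ 2 * e4
  · rintro ⟨γ, h0, h⟩
    have hd : (1 + 4 * Polynomial.X + 7 * Polynomial.X ^ 2 + 7 * Polynomial.X ^ 3 +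
        4 * Polynomial.X ^ 4 + Polynomial.X ^ 5 : Polynomial ℝ).natDegree = 5 := by compute_degree!
    rw [hd] at h
    have u := congrArg (Polynomial.eval 0) h
    have v := congrArg (Polynomial.eval 1) h
    simp [sum_range_succ] at u v
    linarith [h0 1, h0 2]

end Pool.Agent.Results.MP_308823_co.Gamma
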